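import Pool.Agent.R871.SG.UniE

/-!
MP_79ab39_ag, Q1: bounds for the degrees of algebraic maps from all affine curves, and holomorphic maps of
slow growth.
-/

set_option autoImplicit false

namespace Pool.Agent.Results.MP_79ab39_ag.MapsFromAllCurves

open Pool.Agent.R871.SG MvPolynomial

/-- Let `X ⊂ ℙˢ⁻¹` be the projective variety defined by the homogeneous polynomials `F`, over the complex
numbers. For all `d`, `m` let `T d m` be a closed set (in the space of coefficients) of plane affine
curves `B = {(x, y) | y ^ d + a₁(x) y ^ (d - 1) + ⋯ + a_d(x) = 0}`, with polynomials `a_i` of degree at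
most `m`; for instance the set of all these curves. There is a function `φ` with `φ r / log r → ∞` for
`r → ∞` such that for all closed subsets `Z = {G = 0}` (`G` homogeneous of positive degrees; the
coordinates if `Z` is empty) and all `d`, `m`, `D` the following are equivalent.

(1) All algebraic maps from curves `B` in `T d m` to `X`, which map no component of `B` to `Z` (given by
homogeneous coordinates which are polynomials in `x` and `y`), have degree at most `D`, in the
following sense: for all linear forms `u`, `v` in the homogeneous coordinates, the function `u / v` on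
`B` satisfies an equation `∑ i, x ^ i * R i (u, v) = 0`, `i ≤ D`, with forms `R i` of degree `d` which
are not all zero.

(2) All holomorphic maps from curves `B` in `T d m` to `X`, which map no component of `B` to `Z` and are
given by homogeneous coordinates `∑ j, y ^ j • f x j`, `0 ≤ j < d`, with an entire function `f` such
that `log ‖f x‖ ≤ φ r` for all `x` with `‖x‖ ≤ r`, for arbitrarily large `r`, are algebraic of degree at
most `D`, in the same sense. -/
theorem result {s : ℕ} {ι : Type} (F : ι → MvPolynomial (Fin s) ℂ)
    (T : ∀ d m : ℕ, Set (Fin d → Fin (m + 1) → ℂ)) (hT : ∀ d m, IsClosed (T d m)) :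
    ∃ φ : ℝ → ℝ, Grows φ ∧ ∀ (κ : Type) (G : κ → MvPolynomial (Fin s) ℂ) (d m D : ℕ),
      (∀ c ∈ T d m, ∀ P : Fin d → Fin s → Polynomial ℂ, OnPlane F c (pe P) →
        OutPlane G c (pe P) → RelDeg D c (pe P)) ↔
      ∀ c ∈ T d m, ∀ f : ℂ → Fin d → Fin s → ℂ, Differentiable ℂ f → Slow φ f → OnPlane F c f →
        OutPlane G c f → RelDeg D c f :=
  relDeg_iff F T hT

end Pool.Agent.Results.MP_79ab39_ag.MapsFromAllCurves
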